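import Pool.Agent.W547.LF.Main
import Pool.Agent.W547.LF.TDefs
import Pool.Agent.W547.TF.Main

/-!
# Tate classes on powers of abelian varieties of CM type over number fields, and of ordinary abelian
varieties over finite fields
-/

set_option linter.unusedSectionVars false
set_option linter.unusedVariables false

namespace Pool.Agent.W547.LF

open NumberField Pool.Agent.H204R3.CM Pool.Agent.W547.KB Pool.Agent.W547.LD Pool.Agent.W530.NF
open Equiv Module

noncomputable section

/-- The restriction of an alternating form on the Tate module to the rational homology. -/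
def restr {Y : CMAV} {K V : Type} [Field K] [Algebra ℚ K] [AddCommGroup V] [Module K V]
    (C : Comparison Y K V) {κ : Type} (f : V [⋀^κ]→ₗ[K] K) : Y.H1 [⋀^κ]→ₗ[ℚ] K :=
  { toFun := fun v => f (fun k => C.ι (v k))
    map_update_add' := by
      intro hd v k a b
      have h1 : ∀ z, (fun k' => C.ι (Function.update v k z k')) =
          Function.update (fun k' => C.ι (v k')) k (C.ι z) := by
        intro z
        funext k'
        by_cases hk : k' = k
        · subst hk
          rw [Function.update_self, Function.update_self]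
        · rw [Function.update_of_ne hk, Function.update_of_ne hk]
      rw [h1, h1, h1, map_add, AlternatingMap.map_update_add]
    map_update_smul' := by
      intro hd v k a b
      have h1 : ∀ z, (fun k' => C.ι (Function.update v k z k')) =
          Function.update (fun k' => C.ι (v k')) k (C.ι z) := by
        intro z
        funext k'
        by_cases hk : k' = k
        · subst hk
          rw [Function.update_self, Function.update_self]
        · rw [Function.update_of_ne hk, Function.update_of_ne hk]
      let _ : Module ℚ V := Module.compHom V (algebraMap ℚ K)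
      have : IsScalarTower ℚ K V := ⟨fun a b v => by
        rw [Algebra.smul_def, mul_smul]
        rfl⟩
      have h2 : C.ι (a • b) = (algebraMap ℚ K a) • C.ι b := C.ι.toRatLinearMap.map_smul a b
      rw [h1, h1, h2, AlternatingMap.map_update_smul, smul_eq_mul, Algebra.smul_def]
    map_eq_zero_of_eq' := by
      intro v k l hkl hne
      exact f.map_eq_zero_of_eq _ (congrArg C.ι hkl) hne }

/-- A form on the Tate module of `X ^ n`, multiplied by a constant by a power of the Frobenius
element, is a combination of classes in the ring. -/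
theorem generated (X : CMAV) (hX : finrank ℚ X.H1 ≤ 10) (n : ℕ) {K V : Type} [Field K] [CharZero K]
    [AddCommGroup V] [Module K V] (C : Comparison (powerX X n) K V) (w : AbsoluteValue ℂ ℝ)
    (q : ℕ) (hq : q ≠ 0) (hw : w q < 1) (π : (powerX X n).H1)
    (hπ : ShimuraTaniyama (powerX X n) w q π) (N m : ℕ) (hN : N ≠ 0)
    (f : V [⋀^Fin (2 * m)]→ₗ[K] K)
    (hf : ∀ v : Fin (2 * m) → (powerX X n).H1, f (fun k => C.ι (π ^ N * v k)) =
      (q : K) ^ (m * N) * f (fun k => C.ι (v k))) : IsGenerated C f := by
  classical
  rcases isEmpty_or_nonempty (powerX X n).I with hI | ⟨⟨i⟩⟩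
  · -- the zero variety
    rcases Nat.eq_zero_or_pos m with hm | hm
    · subst hm
      have : IsEmpty (Fin (2 * 0)) := inferInstanceAs (IsEmpty (Fin 0))
      refine ⟨1, fun _ => f (fun k => isEmptyElim k), fun _ => AlternatingMap.constOfIsEmpty ℚ _ _ 1,
        fun _ => DWRing.unit _, fun v => ?_⟩
      rw [Fin.sum_univ_one, AlternatingMap.constOfIsEmpty_apply]
      simp only [Function.const_apply]
      rw [Rat.cast_one, mul_one]
      exact congrArg f (funext fun k => isEmptyElim k)
    · refine ⟨0, fun _ => 0, fun _ => 0, fun i => i.elim0, fun v => ?_⟩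
      rw [Finset.univ_eq_empty, Finset.sum_empty]
      refine f.map_coord_zero (⟨0, by omega⟩ : Fin (2 * m)) ?_
      have h1 : v ⟨0, by omega⟩ = 0 := funext fun i => isEmptyElim i
      rw [h1, map_zero]
  · let _ : Algebra ℚ K := DivisionRing.toRatAlgebra
    obtain ⟨r, c, g, hg, hsum⟩ := TN.hodge_span (powerX X n) w q hq hw π hπ
      N m hN (by rw [Nat.card_eq_fintype_card, Fintype.card_fin]) (restr C f) hf
      ((powerX X n).factor i)
    refine ⟨r, c, g, fun i => (isHodge_iff_ring_five X hX n (g i)).1 (hg i), fun v => ?_⟩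
    refine (hsum v).trans ?_
    refine Finset.sum_congr rfl fun i _ => ?_
    rw [Algebra.smul_def, eq_ratCast, mul_comm]

theorem tate_numberField (X : CMAV) (hX : finrank ℚ X.H1 ≤ 10) (n : ℕ) {K V G : Type} [Field K]
    [CharZero K] [AddCommGroup V] [Module K V] [Group G] (C : Comparison (powerX X n) K V)
    (ρ : Representation K G V) (χ : G →* K) (w : AbsoluteValue ℂ ℝ) (q : ℕ) (π : X.H1)
    (γ : G) (h : IsFrobeniusAt X n C ρ χ w q π γ) {m : ℕ}
    (f : V [⋀^Fin (2 * m)]→ₗ[K] K) (hf : IsTateClass ρ χ f) : IsGenerated C f := by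
  obtain ⟨Δ, hΔ, hf⟩ := hf
  obtain ⟨N, hN, hNΔ⟩ := exists_pow_mem Δ hΔ γ
  have hST : ShimuraTaniyama (powerX X n) w q (diag X n π) := by
    constructor
    · intro i φ hφ
      exact h.shimuraTaniyama.mem i.1 φ hφ
    · intro i φ hφ
      exact h.shimuraTaniyama.not_mem i.1 φ hφ
  refine generated X hX n C w q h.ne_zero h.lt_one (diag X n π) hST N m hN f fun v => ?_
  have h1 := hf _ hNΔ (fun k => C.ι (v k))
  simp only [pow_apply C.ι ρ γ h.apply_eq] at h1
  rw [map_pow, h.char_eq, ← pow_mul, mul_comm N m] at h1
  exact h1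

theorem tate_finiteField (p : ℕ) [Fact p.Prime] (a : ℕ) (ha : 0 < a) (ν : PadicAlgCl p ≃+* ℂ)
    (X : CMAV) (hX : finrank ℚ X.H1 ≤ 10) (π : X.H1) (hπ : IsCanonicalLift p a ν X π) (n : ℕ)
    {K V : Type} [Field K] [CharZero K] [AddCommGroup V] [Module K V]
    (C : Comparison (powerX X n) K V) (F : V →ₗ[K] V) (hF : IsFrobeniusMap C π F)
    {m s : ℕ} (hs : 0 < s) (f : V [⋀^Fin (2 * m)]→ₗ[K] K) (hf : IsTateClassOver F (p ^ a) s f) :
    IsGenerated C f := by
  have hp : p.Prime := Fact.out
  have hST : ShimuraTaniyama (powerX X n) (TF.absC p ν) (p ^ a) (diag X n π) := by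
    constructor
    · intro i φ hφ
      rw [TF.absC_cast]
      exact hπ.slope_one i.1 φ hφ
    · intro i φ hφ
      exact hπ.slope_zero i.1 φ hφ
  have hw : TF.absC p ν ((p ^ a : ℕ) : ℂ) < 1 := by
    rw [TF.absC_cast, norm_pow, TF.norm_p]
    refine pow_lt_one₀ (by positivity) ?_ ha.ne'
    rw [inv_lt_one₀ (by exact_mod_cast hp.pos)]
    exact_mod_cast hp.one_lt
  have hFs : ∀ (N : ℕ) (x : (powerX X n).H1), (F ^ N) (C.ι x) = C.ι (diag X n π ^ N * x) := by
    intro N
    induction N with
    | zero =>
      intro x
      simp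
    | succ N ih =>
      intro x
      rw [pow_succ', Module.End.mul_apply, ih, pow_succ', mul_assoc]
      exact hF _
  refine generated X hX n C (TF.absC p ν) (p ^ a) (pow_pos hp.pos a).ne' hw (diag X n π) hST s m
    hs.ne' f fun v => ?_
  have h1 := hf (fun k => C.ι (v k))
  simp only [hFs s] at h1
  exact h1

end

end Pool.Agent.W547.LF
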