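import Pool.Agent.W547.LD.Defs

/-!
# Powers of arbitrary abelian varieties of CM type
-/

namespace Pool.Agent.W547.LD

open Pool.Agent.W547.KB

/-- The power `X ^ n` of an abelian variety `X` of CM type. -/
abbrev powerX (X : CMAV) (n : ℕ) : CMAV := ⟨X.I × Fin n, fun p => X.factor p.1⟩

end Pool.Agent.W547.LD
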