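import Pool.Agent.W547.LF.Blocks
import Pool.Agent.W547.LD.Main
import Pool.Agent.W547.LF.Defs

/-!
# Hodge classes on powers of abelian varieties of CM type of dimension at most five
-/

set_option linter.unusedSectionVars false
set_option linter.unusedVariables false

namespace Pool.Agent.W547.LD

open NumberField Pool.Agent.H204R3.CM Pool.Agent.W547.KB Equiv Module

noncomputable section

variable {L : Type} [Field L] [NumberField L] [IsCMField L] [IsGalois ℚ L]

open Classical in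
/-- The block given by an orbit and several copies of a half system fixed by the subgroup. -/
theorem block_two (j : L →+* ℂ) (X : CMAV) {N : Subgroup (L ≃ₐ[ℚ] L)} (hN : IsImag N)
    {x e : Set (L ≃ₐ[ℚ] L)} (hx : IsHalf x) (he : IsHalf e) (hstx : Comb.stb x ≤ N)
    (hste : Comb.stb e ≤ N) [Fintype (Comb.OrbT N x)] (hfix : ∀ τ ∈ N, Comb.tr τ e = e) (r : ℕ)
    (hcard : Fintype.card (Comb.OrbT N x) = 3 ∧ r = 1 ∨ Fintype.card (Comb.OrbT N x) = 4 ∧ r = 2)
    (hrel : ∀ σ, Comb.psum N x σ + r * Comb.eps e σ = 0) :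
    AlgX X j (Sum.elim (fun T : Comb.OrbT N x => T.1) (fun _ : Fin r => e)) := by
  let x' : Option (Fin r) → Set (L ≃ₐ[ℚ] L) := fun o => o.elim x (fun _ => e)
  let e0 : {S : Set (L ≃ₐ[ℚ] L) // ∃ τ ∈ N, tr τ e = S} ≃ Unit :=
    { toFun := fun _ => ()
      invFun := fun _ => ⟨e, 1, N.one_mem, tr_one e⟩
      left_inv := by
        rintro ⟨S, τ, hτ, rfl⟩
        exact Subtype.ext (hfix τ hτ).symm
      right_inv := fun _ => rfl }
  let f : Orb N x' → Comb.OrbT N x ⊕ Fin r := fun k =>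
    match k with
    | ⟨none, T⟩ => Sum.inl T
    | ⟨some i, _⟩ => Sum.inr i
  let g : Comb.OrbT N x ⊕ Fin r → Orb N x' := fun k =>
    match k with
    | Sum.inl T => ⟨none, T⟩
    | Sum.inr i => ⟨some i, e0.symm ()⟩
  let E : Orb N x' ≃ Comb.OrbT N x ⊕ Fin r :=
    { toFun := f
      invFun := g
      left_inv := by
        rintro ⟨_ | i, T⟩
        · rfl
        · change (⟨some i, e0.symm ()⟩ : Orb N x') = ⟨some i, T⟩
          congr 1
          exact e0.symm_apply_apply T
      right_inv := by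
        rintro (T | i) <;> rfl }
  have hval : ∀ k, Sum.elim (fun T : Comb.OrbT N x => T.1) (fun _ : Fin r => e) (E k) = k.2.1 := by
    rintro ⟨_ | i, T⟩
    · rfl
    · obtain ⟨S, τ, hτ, rfl⟩ := T
      exact (hfix τ hτ).symm
  let _ : Fintype (Orb N x') := Fintype.ofEquiv _ E.symm
  have hbal : Balanced (fun k : Orb N x' => k.2.1) := by
    rw [balanced_iff]
    intro σ
    have h1 : ∑ k : Orb N x', Comb.eps k.2.1 σ = ∑ k : Comb.OrbT N x ⊕ Fin r,
        Comb.eps (Sum.elim (fun T : Comb.OrbT N x => T.1) (fun _ : Fin r => e) k) σ :=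
      Fintype.sum_equiv E _ _ fun k => by rw [hval]
    rw [h1, Fintype.sum_sum_type]
    simp only [Sum.elim_inl, Sum.elim_inr, Finset.sum_const, Finset.card_univ, Fintype.card_fin,
      nsmul_eq_mul]
    exact hrel σ
  have h1 : AlgX X j (fun k : Orb N x' => k.2.1) := by
    refine algX_orb j N x' ?_ hN ?_ ?_ hbal X
    · rintro (_ | i)
      · exact hx
      · exact he
    · rintro (_ | i)
      · exact hstx
      · exact hste
    · rw [Fintype.card_congr E, Fintype.card_sum, Fintype.card_fin]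
      omega
  exact algX_reindex E h1 fun k => hval k

open Classical in
theorem block_five (j : L →+* ℂ) {P : Set (Set (L ≃ₐ[ℚ] L))} (hP : Comb.Stable P)
    (hcompl : ∀ S ∈ P, Sᶜ ∈ P) (hH : ∀ S ∈ P, IsHalf S) (hcard : P.ncard ≤ 10) (X : CMAV)
    (κ : Type) [Fintype κ] [DecidableEq κ] [Nonempty κ] (s : κ → Set (L ≃ₐ[ℚ] L))
    (hs : ∀ k, s k ∈ P) (hbal : Balanced s) (hpair : ∀ k l, s l ≠ (s k)ᶜ) :
      ∃ (κ' : Type) (_ : Fintype κ') (_ : DecidableEq κ') (t : κ' → Set (L ≃ₐ[ℚ] L)),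
        Nonempty κ' ∧ Balanced t ∧ AlgX X j t ∧ ∀ k', cnt t (t k') ≤ cnt s (t k') := by
  obtain ⟨k0⟩ : Nonempty κ := inferInstance
  have ha := isRel_cnt hcompl s hs hbal
  set a : Set (L ≃ₐ[ℚ] L) → ℚ := fun S => cnt s S - cnt s Sᶜ with hadef
  have hak : ∀ k, a (s k) = cnt s (s k) := by
    intro k
    change cnt s (s k) - cnt s (s k)ᶜ = _
    rw [cnt_eq_zero s _ (hpair k), sub_zero]
  have hapos : ∀ S, 0 < a S → a S = cnt s S := by
    intro S hS
    have h1 := cnt_nonneg s Sᶜ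
    have h2 : 0 < cnt s S := by
      change 0 < cnt s S - cnt s Sᶜ at hS
      linarith
    obtain ⟨k, rfl⟩ := (cnt_pos_iff s S).1 h2
    exact hak k
  have hone : ∀ S, 0 < a S → 1 ≤ a S := by
    intro S hS
    have h1 := hapos S hS
    rw [h1, cnt_eq] at hS ⊢
    have h2 : 0 < Nat.card {k // s k = S} := by exact_mod_cast hS
    exact_mod_cast h2
  have ha0 : a ≠ 0 := by
    intro h
    have h1 := hak k0
    rw [h] at h1
    have h2 : 0 < cnt s (s k0) := (cnt_pos_iff s _).2 ⟨k0, rfl⟩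
    rw [← h1] at h2
    exact lt_irrefl _ h2
  have hR := Comb.rankOne_of_card_le_ten hcompl hcard
  have hc : ∀ g, cc L * g = g * cc L := fun g => cc_comm j g
  obtain ⟨N, hN, hNp, hNn⟩ := Comb.extract hc hP hH hR ha ha0
  obtain ⟨x, hx, h1, h2⟩ := Comb.exists_orbit hc hcompl hH ha hN hNp hcard ha0
  have hxH := hH _ (Comb.mem_of_pos ha hx)
  have hstx := Comb.stb_le hNn hx.ne'
  have hcntO : ∀ (T : Comb.OrbT N x),
      cnt (fun T : Comb.OrbT N x => T.1) T.1 ≤ 1 := by
    intro T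
    rw [cnt_eq]
    have h3 : Nat.card {k : Comb.OrbT N x // k.1 = T.1} ≤ 1 := by
      rw [Finite.card_le_one_iff_subsingleton]
      exact ⟨fun a b => Subtype.ext (Subtype.ext (a.2.trans b.2.symm))⟩
    exact_mod_cast h3
  by_cases h0 : a {σ | σ ∈ N} = 0
  · obtain ⟨h4, h5⟩ := Comb.caseA hc hcompl hH ha hN hNp hcard hx h1 h2 h0
    have hb : Balanced (fun k : Comb.OrbT N x => k.1) := by
      rw [balanced_iff]
      exact h5
    refine ⟨Comb.OrbT N x, inferInstance, inferInstance, fun T => T.1,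
      ⟨⟨x, Comb.self_mem N x⟩⟩, hb, algX_one j hN hxH hstx (Or.inl h4) hb X, fun T => ?_⟩
    refine (hcntO T).trans ?_
    have h6 : 0 < a T.1 := by
      rw [Comb.orb_val hNp T]
      exact hx
    have h7 := hone _ h6
    rwa [hapos _ h6] at h7
  · obtain ⟨e, he, he0⟩ : ∃ e, (e = {σ | σ ∈ N} ∨ e = {σ | σ ∈ N}ᶜ) ∧ 0 < a e := by
      rcases lt_or_gt_of_ne h0 with h | h
      · exact ⟨_, Or.inr rfl, by rw [ha.odd]; linarith⟩
      · exact ⟨_, Or.inl rfl, h⟩
    obtain ⟨r, hr1, hr2, hr3⟩ := Comb.caseB hc hcompl hH ha hN hNp hcard hx h1 h2 he he0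
    have hfixN : ∀ τ ∈ N, Comb.tr τ {σ | σ ∈ N} = {σ | σ ∈ N} := by
      intro τ hτ
      ext σ
      rw [Comb.mem_tr]
      exact N.mul_mem_cancel_right hτ
    have hfix : ∀ τ ∈ N, Comb.tr τ e = e := by
      intro τ hτ
      rcases he with he | he
      · rw [he, hfixN τ hτ]
      · rw [he, Comb.tr_compl, hfixN τ hτ]
    have heO : ∀ T : Comb.OrbT N x, T.1 ≠ e := by
      intro T h
      obtain ⟨τ, hτ, hT⟩ := T.2
      have h3 : x = e := by
        rw [← Comb.tr_inv_tr τ x, hT, h, hfix _ (N.inv_mem hτ)]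
      rcases he with he | he
      · exact h1 (h3.trans he)
      · exact h2 (h3.trans he)
    have hb : Balanced (Sum.elim (fun T : Comb.OrbT N x => T.1) (fun _ : Fin r => e)) := by
      rw [balanced_iff]
      intro σ
      rw [Fintype.sum_sum_type]
      simp only [Sum.elim_inl, Sum.elim_inr, Finset.sum_const, Finset.card_univ,
        Fintype.card_fin, nsmul_eq_mul]
      exact hr3 σ
    refine ⟨Comb.OrbT N x ⊕ Fin r, inferInstance, inferInstance,
      Sum.elim (fun T : Comb.OrbT N x => T.1) (fun _ : Fin r => e),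
      ⟨Sum.inl ⟨x, Comb.self_mem N x⟩⟩, hb, block_two j X hN hxH (hH _ (Comb.mem_of_pos ha he0))
        hstx (Comb.stb_le hNn he0.ne') hfix r hr1 hr3, ?_⟩
    have hsum : ∀ S, cnt (Sum.elim (fun T : Comb.OrbT N x => T.1) (fun _ : Fin r => e)) S =
        cnt (fun T : Comb.OrbT N x => T.1) S + r * (if e = S then 1 else 0) := by
      intro S
      unfold cnt
      rw [Fintype.sum_sum_type]
      congr 1
      by_cases hS : e = S
      · rw [if_pos hS, mul_one]
        have h3 : ∀ i : Fin r, (if Sum.elim (fun T : Comb.OrbT N x => T.1) (fun _ : Fin r => e)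
            (Sum.inr i) = S then (1 : ℚ) else 0) = 1 := fun i => if_pos hS
        rw [Finset.sum_congr rfl (fun i _ => h3 i), Finset.sum_const, Finset.card_univ,
          Fintype.card_fin, nsmul_eq_mul, mul_one]
      · rw [if_neg hS, mul_zero]
        exact Finset.sum_eq_zero fun i _ => if_neg hS
    rintro (T | i)
    · change cnt _ T.1 ≤ cnt s T.1
      rw [hsum, if_neg (fun h => heO T h.symm), mul_zero, add_zero]
      refine (hcntO T).trans ?_
      have h6 : 0 < a T.1 := by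
        rw [Comb.orb_val hNp T]
        exact hx
      have h7 := hone _ h6
      rwa [hapos _ h6] at h7
    · change cnt _ e ≤ cnt s e
      rw [hsum, if_pos rfl, mul_one, cnt_eq_zero (fun T : Comb.OrbT N x => T.1) e heO, zero_add,
        ← hapos _ he0, hr2]
      have h7 := hone _ hx
      have h8 : (0 : ℚ) ≤ r := Nat.cast_nonneg r
      nlinarith

/-! ## The theorem -/

/-- The power of `X`: the product of `n` copies. -/
theorem ring_five (X : CMAV) (hX : finrank ℚ X.H1 ≤ 10) (n : ℕ) {κ : Type} [Finite κ]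
    (f : (powerX X n).H1 [⋀^κ]→ₗ[ℚ] ℚ) (hf : IsHodge (powerX X n).per f) :
    DWRing (powerX X n) κ f := by
  classical
  rcases Nat.eq_zero_or_pos n with hn | hn
  · have := Fintype.ofFinite κ
    rcases isEmpty_or_nonempty κ with hκ | ⟨⟨k0⟩⟩
    · exact DWRing.unit f
    · have h1 : f = 0 := by
        ext v
        have h2 : v k0 = 0 := by
          funext i
          subst hn
          exact i.2.elim0
        rw [f.map_coord_zero k0 h2]
        rfl
      rw [h1]
      exact DWRing.zero κ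
  refine ring_of_mono (powerX X n) ?_ f hf
  intro L _ _ _ _ j hj _ _ I hb
  let P : Set (Set (L ≃ₐ[ℚ] L)) := ⋃ i, Set.range (hs (X.factor i) j)
  have hj' : ∀ i, ∀ ψ : (X.factor i).E →+* ℂ, ∃ φ : (X.factor i).E →+* L, j.comp φ = ψ :=
    fun i ψ => hj (i, ⟨0, hn⟩) ψ
  have hP : Comb.Stable P := by
    intro τ S hS
    obtain ⟨i, hi⟩ := Set.mem_iUnion.1 hS
    exact Set.mem_iUnion.2 ⟨i, stable_hs (X.factor i) j τ S hi⟩
  have hcompl : ∀ S ∈ P, Sᶜ ∈ P := by
    intro S hS
    obtain ⟨i, hi⟩ := Set.mem_iUnion.1 hS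
    exact Set.mem_iUnion.2 ⟨i, compl_hs (X.factor i) j S hi⟩
  have hH : ∀ S ∈ P, IsHalf S := by
    intro S hS
    obtain ⟨i, φ, rfl⟩ := Set.mem_iUnion.1 hS
    exact isHalf_hs (X.factor i) j φ
  have hcard : P.ncard ≤ 10 := by
    refine le_trans ?_ hX
    have h1 : finrank ℚ X.H1 = ∑ i, finrank ℚ (X.factor i).E := Module.finrank_pi_fintype ℚ
    rw [h1]
    have h2 : P.ncard ≤ ∑ i, (Set.range (hs (X.factor i) j)).ncard := by
      have h3 := Finset.set_ncard_biUnion_le (Finset.univ : Finset X.I)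
        (fun i => Set.range (hs (X.factor i) j))
      simpa using h3
    exact h2.trans (Finset.sum_le_sum fun i _ => ncard_hs (X.factor i) j (hj' i))
  exact algX_of_blocks j (powerX X n) (· ∈ P)
    (fun κ _ _ _ s hs hbal hpair => block_five j hP hcompl hH hcard (powerX X n) κ s hs hbal hpair)
    _ κ rfl (fun k => St j (I k)) (fun k => Set.mem_iUnion.2 ⟨(I k).1.1, (I k).2, rfl⟩) hb I
    (fun k => rfl)

theorem isHodge_iff_ring_five (X : CMAV) (hX : finrank ℚ X.H1 ≤ 10) (n : ℕ) {κ : Type} [Finite κ]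
    (f : (powerX X n).H1 [⋀^κ]→ₗ[ℚ] ℚ) : IsHodge (powerX X n).per f ↔ DWRing (powerX X n) κ f :=
  ⟨ring_five X hX n f, isHodge_of_ring⟩

end

end Pool.Agent.W547.LD
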