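import Pool.Agent.W547.LF.Struct
import Pool.Agent.W547.LD.Final

/-!
# Decomposition of balanced families into blocks
-/

set_option linter.unusedSectionVars false
set_option linter.unusedVariables false

namespace Pool.Agent.W547.LD

open NumberField Pool.Agent.H204R3.CM Pool.Agent.W547.KB Equiv Module

noncomputable section

/-- A family with smaller multiplicities is a subfamily. -/
theorem exists_embedding {κ κ' Z : Type} [Fintype κ] [Fintype κ'] (s : κ → Z) (t : κ' → Z)
    (h : ∀ S, Nat.card {k' // t k' = S} ≤ Nat.card {k // s k = S}) :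
    ∃ e : κ' → κ, Function.Injective e ∧ ∀ k', s (e k') = t k' := by
  classical
  have h1 : ∀ S, Nonempty ({k' // t k' = S} ↪ {k // s k = S}) := by
    intro S
    refine Function.Embedding.nonempty_of_card_le ?_
    rw [← Nat.card_eq_fintype_card, ← Nat.card_eq_fintype_card]
    exact h S
  let f := fun S => Classical.choice (h1 S)
  refine ⟨fun k' => (f (t k') ⟨k', rfl⟩).1, fun k l hkl => ?_, fun k' => (f (t k') ⟨k', rfl⟩).2⟩
  have hs : t k = t l := by
    rw [← (f (t k) ⟨k, rfl⟩).2, ← (f (t l) ⟨l, rfl⟩).2]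
    exact congrArg s hkl
  have key : ∀ (S : Z) (hk : t k = S) (hl : t l = S), (f S ⟨k, hk⟩).1 = (f S ⟨l, hl⟩).1 → k = l := by
    intro S hk hl h2
    exact congrArg Subtype.val ((f S).injective (Subtype.ext h2))
  refine key (t k) rfl hs.symm ?_
  have h3 : ∀ (S : Z) (hS : t l = S), (f (t l) ⟨l, rfl⟩).1 = (f S ⟨l, hS⟩).1 := by
    rintro S rfl
    rfl
  rw [← h3 (t k) hs.symm]
  exact hkl

variable {L : Type} [Field L] [NumberField L] [IsCMField L] [IsGalois ℚ L]

theorem cnt_eq {κ : Type} [Fintype κ] (s : κ → Set (L ≃ₐ[ℚ] L)) (S : Set (L ≃ₐ[ℚ] L)) :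
    cnt s S = (Nat.card {k // s k = S} : ℚ) := by
  classical
  unfold cnt
  rw [Finset.sum_boole, Nat.card_eq_fintype_card, Fintype.card_subtype]

theorem exists_embedding' {κ κ' : Type} [Fintype κ] [Fintype κ'] (s : κ → Set (L ≃ₐ[ℚ] L))
    (t : κ' → Set (L ≃ₐ[ℚ] L)) (h : ∀ k', cnt t (t k') ≤ cnt s (t k')) :
    ∃ e : κ' → κ, Function.Injective e ∧ ∀ k', s (e k') = t k' := by
  refine exists_embedding s t fun S => ?_
  rcases isEmpty_or_nonempty {k' // t k' = S} with h1 | ⟨⟨k', rfl⟩⟩
  · rw [Nat.card_of_isEmpty]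
    exact Nat.zero_le _
  · have h2 := h k'
    rw [cnt_eq, cnt_eq] at h2
    exact_mod_cast h2

/-- If each balanced family without complementary pairs contains a block, all balanced families
are decomposed. -/
theorem algX_of_blocks (j : L →+* ℂ) (X : CMAV) (R : Set (L ≃ₐ[ℚ] L) → Prop)
    (hblock : ∀ (κ : Type) [Fintype κ] [DecidableEq κ] [Nonempty κ] (s : κ → Set (L ≃ₐ[ℚ] L)),
      (∀ k, R (s k)) → Balanced s → (∀ k l, s l ≠ (s k)ᶜ) →
      ∃ (κ' : Type) (_ : Fintype κ') (_ : DecidableEq κ') (t : κ' → Set (L ≃ₐ[ℚ] L)),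
        Nonempty κ' ∧ Balanced t ∧ AlgX X j t ∧ ∀ k', cnt t (t k') ≤ cnt s (t k')) (n : ℕ) :
    ∀ (κ : Type) [Fintype κ] [DecidableEq κ], Fintype.card κ = n →
      ∀ s : κ → Set (L ≃ₐ[ℚ] L), (∀ k, R (s k)) → Balanced s → AlgX X j s := by
  classical
  induction n using Nat.strong_induction_on with
  | _ n ih =>
    intro κ _ _ hn s hs hbal
    rcases isEmpty_or_nonempty κ with he | hne
    · exact algX_empty j s
    by_cases hpair : ∃ a b, s b = (s a)ᶜ
    · obtain ⟨a, b, hab⟩ := hpair
      have hne : a ≠ b := by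
        rintro rfl
        exact ne_compl _ hab
      have hcard' := card_split a b hne
      exact algX_split a b hne hab (ih _ (by omega) _ rfl _ (fun k => hs k.1)
        (balanced_rest hbal a b hne hab))
    · push Not at hpair
      obtain ⟨κ', _, _, t, ⟨k0⟩, ht, hAt, hcnt⟩ := hblock κ s hs hbal hpair
      obtain ⟨e, hinj, he⟩ := exists_embedding' s t hcnt
      refine algX_of_sub e hinj he hAt ?_
      refine ih _ ?_ _ rfl _ (fun k => hs k.1) (balanced_of_sub e hinj he hbal ht)
      rw [← hn]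
      refine Fintype.card_subtype_lt (x := e k0) ?_
      intro h
      exact h ⟨_, rfl⟩

end

end Pool.Agent.W547.LD
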