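import Pool.Agent.W547.LD.Extract

/-!
# Orbits of half systems under a subgroup of index two
-/

set_option linter.unusedSectionVars false
set_option linter.unusedVariables false

namespace Pool.Agent.W547.LD.Comb

open Finset

noncomputable section

variable {G : Type} [Group G] [Fintype G] {P : Set (Set G)} {a : Set G → ℚ}

open Classical in
/-- The sum of signs. -/
theorem sum_eps {ι : Type*} [Fintype ι] (r : ι → Set G) (σ : G) :
    ∃ m : ℕ, m ≤ Fintype.card ι ∧ ∑ i, eps (r i) σ = (Fintype.card ι : ℚ) - 2 * m ∧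
      (m = 0 → ∀ i, eps (r i) σ = 1) ∧ (m = Fintype.card ι → ∀ i, eps (r i) σ = -1) := by
  refine ⟨(univ.filter fun i => eps (r i) σ = -1).card, ?_, ?_, ?_, ?_⟩
  · exact card_le_univ _
  · have h1 : ∀ i, eps (r i) σ = 1 - 2 * (if eps (r i) σ = -1 then (1 : ℚ) else 0) := by
      intro i
      rcases eps_cases (r i) σ with h | h
      · rw [h, if_neg (by norm_num)]
        norm_num
      · rw [h, if_pos rfl]
        norm_num
    rw [sum_congr rfl (fun i _ => h1 i), sum_sub_distrib, sum_const, card_univ, nsmul_eq_mul,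
      mul_one, ← mul_sum, sum_boole]
  · intro h i
    rcases eps_cases (r i) σ with h1 | h1
    · exact h1
    · have h2 : i ∈ univ.filter fun i => eps (r i) σ = -1 := mem_filter.2 ⟨mem_univ _, h1⟩
      rw [card_eq_zero.1 h] at h2
      simp at h2
  · intro h i
    have h2 : univ.filter (fun i => eps (r i) σ = -1) = univ := (card_eq_iff_eq_univ _).1 h
    have h3 : i ∈ univ.filter fun i => eps (r i) σ = -1 := by
      rw [h2]
      exact mem_univ i
    exact (mem_filter.1 h3).2

/-- The sum of the signs over an orbit. -/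
def psum (N : Subgroup G) (x : Set G) [Fintype (OrbT N x)] (σ : G) : ℚ :=
  ∑ S : OrbT N x, eps S.1 σ

section

variable {c : G} (hc : ∀ g, c * g = g * c) {N : Subgroup G}
  (hN : c ∉ N ∧ ∀ τ, τ ∉ N → c * τ ∈ N) {x : Set G} (hx : Half c x)

/-- The action on an orbit. -/
def actT (N : Subgroup G) (x : Set G) (τ : N) (S : OrbT N x) : OrbT N x :=
  ⟨tr τ.1 S.1, τ.1 * S.2.choose, N.mul_mem τ.2 S.2.choose_spec.1, by
    rw [← tr_tr, S.2.choose_spec.2]⟩

theorem actT_bijective (τ : N) : Function.Bijective (actT N x τ) := by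
  refine (Finite.injective_iff_bijective).1 ?_
  intro S T h
  exact Subtype.ext (tr_injective _ (congrArg Subtype.val h))

variable [Fintype (OrbT N x)]

theorem psum_mem {σ : G} (hσ : σ ∈ N) : psum N x σ = psum N x 1 := by
  unfold psum
  refine Fintype.sum_bijective (actT N x ⟨σ, hσ⟩) (actT_bijective ⟨σ, hσ⟩) _ _ fun S => ?_
  change _ = eps (tr σ S.1) 1
  rw [eps_tr, one_mul]

theorem half_of_orb (hx : Half c x) (S : OrbT N x) : Half c S.1 := by
  obtain ⟨τ, -, h⟩ := S.2
  rw [← h]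
  exact hx.tr τ

include hx in
theorem psum_c (σ : G) : psum N x (c * σ) = -psum N x σ := by
  unfold psum
  rw [← sum_neg_distrib]
  refine sum_congr rfl fun S _ => ?_
  have h1 := half_of_orb hx S σ
  unfold eps
  by_cases h : σ ∈ S.1
  · rw [if_pos h, if_neg (h1.1 h)]
  · rw [if_neg h, if_pos (by tauto), neg_neg]

include hN hx in
theorem psum_abs (σ : G) : |psum N x σ| = |psum N x 1| := by
  by_cases h : σ ∈ N
  · rw [psum_mem h]
  · have h1 := psum_mem (x := x) (hN.2 σ h)
    rw [psum_c hx] at h1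
    rw [← h1, abs_neg]

include hN hx in
/-- If the signs agree at one place, the orbit has one element. -/
theorem card_one_of_abs (h : |psum N x 1| = Fintype.card (OrbT N x)) (S T : OrbT N x) : S = T := by
  refine Subtype.ext ?_
  by_contra hne
  obtain ⟨σ, hσ⟩ := exists_ne hne
  have h1 : |psum N x σ| = Fintype.card (OrbT N x) := by rw [psum_abs hN hx, h]
  obtain ⟨m, hm, hm1, hm2, hm3⟩ := sum_eps (fun S : OrbT N x => S.1) σ
  have h2 : psum N x σ = (Fintype.card (OrbT N x) : ℚ) - 2 * m := hm1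
  have h3 : m = 0 ∨ m = Fintype.card (OrbT N x) := by
    rcases abs_eq (by positivity : (0 : ℚ) ≤ Fintype.card (OrbT N x)) |>.1 h1 with h4 | h4
    · left
      have h5 : (m : ℚ) = 0 := by linarith
      exact_mod_cast h5
    · right
      have h5 : (m : ℚ) = Fintype.card (OrbT N x) := by linarith
      exact_mod_cast h5
  have h6 : eps S.1 σ = eps T.1 σ := by
    rcases h3 with h4 | h4
    · rw [hm2 h4 S, hm2 h4 T]
    · rw [hm3 h4 S, hm3 h4 T]
  rw [h6] at hσ
  rcases eps_cases T.1 σ with h7 | h7 <;> rw [h7] at hσ <;> norm_num at hσ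

theorem self_mem (N : Subgroup G) (x : Set G) : ∃ τ ∈ N, tr τ x = x := ⟨1, N.one_mem, tr_one x⟩

include hc hN hx in
/-- An orbit with one element. -/
theorem eq_of_sub (h : ∀ S T : OrbT N x, S = T) : x = {σ | σ ∈ N} ∨ x = {σ | σ ∈ N}ᶜ := by
  have h1 : ∀ τ ∈ N, tr τ x = x := by
    intro τ hτ
    exact congrArg Subtype.val (h ⟨tr τ x, τ, hτ, rfl⟩ ⟨x, self_mem N x⟩)
  have h2 : ∀ τ ∈ N, (τ ∈ x ↔ 1 ∈ x) := by
    intro τ hτ
    have h3 : (1 : G) ∈ tr τ x ↔ 1 ∈ x := by rw [h1 τ hτ]
    rw [mem_tr, one_mul] at h3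
    exact h3
  have h4 : ∀ τ, τ ∉ N → (τ ∈ x ↔ 1 ∉ x) := by
    intro τ hτ
    rw [hx τ, h2 _ (hN.2 τ hτ)]
  by_cases h5 : (1 : G) ∈ x
  · left
    ext τ
    by_cases h6 : τ ∈ N
    · exact iff_of_true ((h2 τ h6).2 h5) h6
    · exact iff_of_false (fun h7 => (h4 τ h6).1 h7 h5) h6
  · right
    ext τ
    by_cases h6 : τ ∈ N
    · refine iff_of_false (fun h7 => h5 ((h2 τ h6).1 h7)) (fun h7 => h7 h6)
    · refine iff_of_true ((h4 τ h6).2 h5) h6

include hc hN hx in
/-- The size of the orbits. -/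
theorem three_le (hnc : ∀ S T : OrbT N x, S.1 ≠ (T.1)ᶜ)
    (h1 : x ≠ {σ | σ ∈ N}) (h2 : x ≠ {σ | σ ∈ N}ᶜ) : 3 ≤ Fintype.card (OrbT N x) := by
  classical
  have hne : ∃ S T : OrbT N x, S ≠ T := by
    by_contra hcon
    push Not at hcon
    rcases eq_of_sub hc hN hx hcon with h | h
    · exact h1 h
    · exact h2 h
  have hcard : 1 < Fintype.card (OrbT N x) := Fintype.one_lt_card_iff.2 hne
  by_contra hcon
  have hcard2 : Fintype.card (OrbT N x) = 2 := by omega
  obtain ⟨S, T, hST, huniv⟩ := Finset.card_eq_two.1 (by rw [Finset.card_univ]; exact hcard2 :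
    (Finset.univ : Finset (OrbT N x)).card = 2)
  have hp : ∀ σ, psum N x σ = eps S.1 σ + eps T.1 σ := by
    intro σ
    unfold psum
    rw [huniv, Finset.sum_pair hST]
  rcases eps_cases S.1 1 with h3 | h3 <;> rcases eps_cases T.1 1 with h4 | h4
  · refine hST (card_one_of_abs hN hx ?_ S T)
    rw [hp, h3, h4, hcard2]
    norm_num
  · have h5 : ∀ σ, psum N x σ = 0 := by
      intro σ
      have h6 := psum_abs hN hx σ
      rw [hp 1, h3, h4] at h6
      norm_num at h6
      exact h6
    apply hnc S T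
    ext σ
    have h6 := h5 σ
    rw [hp] at h6
    have h7 : eps S.1 σ = eps (T.1)ᶜ σ := by
      rw [eps_compl]
      linarith
    exact (eps_eq_iff _ _ _).1 h7
  · have h5 : ∀ σ, psum N x σ = 0 := by
      intro σ
      have h6 := psum_abs hN hx σ
      rw [hp 1, h3, h4] at h6
      norm_num at h6
      exact h6
    apply hnc S T
    ext σ
    have h6 := h5 σ
    rw [hp] at h6
    have h7 : eps S.1 σ = eps (T.1)ᶜ σ := by
      rw [eps_compl]
      linarith
    exact (eps_eq_iff _ _ _).1 h7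
  · refine hST (card_one_of_abs hN hx ?_ S T)
    rw [hp, h3, h4, hcard2]
    norm_num

end

end

end Pool.Agent.W547.LD.Comb
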