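import Pool.Agent.W547.LF.Orbits

/-!
# The structure of the relations between at most five pairs of half systems
-/

set_option linter.unusedSectionVars false
set_option linter.unusedVariables false

namespace Pool.Agent.W547.LD.Comb

open Finset

noncomputable section

variable {G : Type} [Group G] [Fintype G] {P : Set (Set G)} {a : Set G → ℚ}

theorem two_mul_card_le (hcompl : ∀ S ∈ P, Sᶜ ∈ P) (ha : IsRel P a) {ι : Type} [Fintype ι]
    (r : ι → Set G) (hr : Function.Injective r) (hpos : ∀ i, 0 < a (r i)) :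
    2 * Fintype.card ι ≤ P.ncard := by
  have hne : ∀ i k, r i ≠ (r k)ᶜ := by
    intro i k h
    have h1 := hpos i
    rw [h, ha.odd] at h1
    have h2 := hpos k
    linarith
  have h1 : Function.Injective (Sum.elim r (fun i => (r i)ᶜ)) := by
    rintro (i | i) (k | k) h
    · exact congrArg Sum.inl (hr h)
    · exact absurd h (hne i k)
    · exact absurd h.symm (hne k i)
    · exact congrArg Sum.inr (hr (compl_injective h))
  have hmem : ∀ i, r i ∈ P := by
    intro i
    by_contra h
    have h2 := hpos i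
    rw [ha.supp _ h] at h2
    exact lt_irrefl _ h2
  have h2 : Nat.card (ι ⊕ ι) ≤ P.ncard := by
    rw [← Set.ncard_range_of_injective h1]
    refine Set.ncard_le_ncard ?_ (Set.toFinite _)
    rintro _ ⟨i | i, rfl⟩
    · exact hmem i
    · exact hcompl _ (hmem i)
  rw [Nat.card_sum, Nat.card_eq_fintype_card] at h2
  omega

section

variable {c : G} (hc : ∀ g, c * g = g * c) (hcompl : ∀ S ∈ P, Sᶜ ∈ P)
  (hH : ∀ S ∈ P, Half c S) (ha : IsRel P a) {N : Subgroup G} (hN : c ∉ N ∧ ∀ τ, τ ∉ N → c * τ ∈ N)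
  (hpos : ∀ τ ∈ N, ∀ S, a (tr τ S) = a S) (hcard : P.ncard ≤ 10)

include ha in
theorem mem_of_pos {S : Set G} (h : 0 < a S) : S ∈ P := by
  by_contra h1
  rw [ha.supp S h1] at h
  exact lt_irrefl _ h

include hc hcompl hH ha hN hpos hcard in
/-- There is only one orbit with more than one element. -/
theorem mem_orbit {x : Set G} (hx : 0 < a x) (h1 : x ≠ {σ | σ ∈ N}) (h2 : x ≠ {σ | σ ∈ N}ᶜ)
    {S : Set G} (hS : 0 < a S) (h3 : S ≠ {σ | σ ∈ N}) (h4 : S ≠ {σ | σ ∈ N}ᶜ) :
    ∃ T : OrbT N x, S = T.1 := by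
  classical
  by_contra hcon
  push Not at hcon
  have hxH := hH _ (mem_of_pos ha hx)
  have hSH := hH _ (mem_of_pos ha hS)
  have h5 := three_le hc hN hxH (fun T U => orb_ne_compl ha hpos hx.ne' T U) h1 h2
  have h6 := three_le hc hN hSH (fun T U => orb_ne_compl ha hpos hS.ne' T U) h3 h4
  have h7 := two_mul_card_le hcompl ha (Sum.elim (fun T : OrbT N x => (T.1 : Set G))
    (fun T : OrbT N S => (T.1 : Set G))) (by
      rintro (T | T) (U | U) h
      · exact congrArg Sum.inl (Subtype.ext h)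
      · exfalso
        obtain ⟨τ, hτ, hT⟩ := T.2
        obtain ⟨τ', hτ', hU⟩ := U.2
        have h8 : T.1 = U.1 := h
        refine hcon ⟨S, τ'⁻¹ * τ, N.mul_mem (N.inv_mem hτ') hτ, ?_⟩ rfl
        rw [← tr_tr, hT, h8, ← hU, tr_inv_tr]
      · exfalso
        obtain ⟨τ, hτ, hT⟩ := T.2
        obtain ⟨τ', hτ', hU⟩ := U.2
        have h8 : T.1 = U.1 := h
        refine hcon ⟨S, τ⁻¹ * τ', N.mul_mem (N.inv_mem hτ) hτ', ?_⟩ rfl
        rw [← tr_tr, hU, ← h8, ← hT, tr_inv_tr]
      · exact congrArg Sum.inr (Subtype.ext h)) (by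
      rintro (T | T)
      · change 0 < a T.1
        rw [orb_val hpos T]
        exact hx
      · change 0 < a T.1
        rw [orb_val hpos T]
        exact hS)
  rw [Fintype.card_sum] at h7
  omega

include hc hcompl hH ha hN hpos hcard in
theorem caseA {x : Set G} (hx : 0 < a x) (h1 : x ≠ {σ | σ ∈ N}) (h2 : x ≠ {σ | σ ∈ N}ᶜ)
    (h0 : a {σ | σ ∈ N} = 0) [Fintype (OrbT N x)] :
    Fintype.card (OrbT N x) = 4 ∧ ∀ σ, psum N x σ = 0 := by
  have hxH := hH _ (mem_of_pos ha hx)
  have hsum : ∀ σ, psum N x σ = 0 := by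
    intro σ
    have h3 := ha.rep (fun S : OrbT N x => S.1) Subtype.val_injective
      (fun S T => orb_ne_compl ha hpos hx.ne' S T) (fun S hS => by
        rcases lt_or_gt_of_ne hS with h | h
        · have h4 : 0 < a Sᶜ := by rw [ha.odd]; linarith
          obtain ⟨T, hT⟩ := mem_orbit hc hcompl hH ha hN hpos hcard hx h1 h2 h4
            (fun h5 => by rw [h5, h0] at h4; exact lt_irrefl _ h4)
            (fun h5 => by rw [h5, ha.odd, h0, neg_zero] at h4; exact lt_irrefl _ h4)
          exact ⟨T, Or.inr (by rw [← hT, compl_compl])⟩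
        · obtain ⟨T, hT⟩ := mem_orbit hc hcompl hH ha hN hpos hcard hx h1 h2 h
            (fun h5 => by rw [h5, h0] at h; exact lt_irrefl _ h)
            (fun h5 => by rw [h5, ha.odd, h0, neg_zero] at h; exact lt_irrefl _ h)
          exact ⟨T, Or.inl hT⟩) σ
    have h4 : a x * psum N x σ = 0 := by
      unfold psum
      rw [Finset.mul_sum]
      refine (Finset.sum_congr rfl fun S _ => ?_).trans h3
      rw [orb_val hpos S]
    exact (mul_eq_zero.1 h4).resolve_left hx.ne'
  refine ⟨?_, hsum⟩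
  obtain ⟨m, hm, hm1, -, -⟩ := sum_eps (fun S : OrbT N x => S.1) 1
  have h3 : psum N x 1 = (Fintype.card (OrbT N x) : ℚ) - 2 * m := hm1
  rw [hsum] at h3
  have h4 : Fintype.card (OrbT N x) = 2 * m := by
    have h5 : (Fintype.card (OrbT N x) : ℚ) = ((2 * m : ℕ) : ℚ) := by
      push_cast
      linarith
    exact_mod_cast h5
  have h5 := three_le hc hN hxH (fun T U => orb_ne_compl ha hpos hx.ne' T U) h1 h2
  have h6 := two_mul_card_le hcompl ha (fun T : OrbT N x => (T.1 : Set G)) Subtype.val_injective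
    (fun T => by
      rw [orb_val hpos T]
      exact hx)
  omega

include hc hcompl hH ha hN hpos hcard in
theorem caseB {x : Set G} (hx : 0 < a x) (h1 : x ≠ {σ | σ ∈ N}) (h2 : x ≠ {σ | σ ∈ N}ᶜ)
    {e : Set G} (he : e = {σ | σ ∈ N} ∨ e = {σ | σ ∈ N}ᶜ) (h0 : 0 < a e)
    [Fintype (OrbT N x)] :
    ∃ r : ℕ, (Fintype.card (OrbT N x) = 3 ∧ r = 1 ∨ Fintype.card (OrbT N x) = 4 ∧ r = 2) ∧
      a e = r * a x ∧ ∀ σ, psum N x σ + r * eps e σ = 0 := by
  have hxH := hH _ (mem_of_pos ha hx)
  have heN : ∀ S : Set G, (S = {σ | σ ∈ N} ∨ S = {σ | σ ∈ N}ᶜ) → S = e ∨ S = eᶜ := by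
    intro S hS
    rcases he with he | he <;> rcases hS with hS | hS
    · exact Or.inl (hS.trans he.symm)
    · exact Or.inr (by rw [hS, he])
    · exact Or.inr (by rw [hS, he, compl_compl])
    · exact Or.inl (hS.trans he.symm)
  -- the element e is not in the orbit
  have heO : ∀ T : OrbT N x, T.1 ≠ e ∧ T.1 ≠ eᶜ := by
    intro T
    have htr : ∀ τ ∈ N, tr τ {σ | σ ∈ N} = {σ | σ ∈ N} := by
      intro τ hτ
      ext σ
      rw [mem_tr]
      exact N.mul_mem_cancel_right hτ
    have key : ∀ S : Set G, (S = {σ | σ ∈ N} ∨ S = {σ | σ ∈ N}ᶜ) → T.1 ≠ S := by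
      intro S hS h
      obtain ⟨τ, hτ, hT⟩ := T.2
      have h3 : x = tr τ⁻¹ S := by rw [← h, ← hT, tr_inv_tr]
      rcases hS with hS | hS
      · apply h1
        rw [h3, hS, htr _ (N.inv_mem hτ)]
      · apply h2
        rw [h3, hS, tr_compl, htr _ (N.inv_mem hτ)]
    refine ⟨key e he, key eᶜ ?_⟩
    rcases he with he | he
    · exact Or.inr (by rw [he])
    · exact Or.inl (by rw [he, compl_compl])
  let r : Option (OrbT N x) → Set G := fun o => o.elim e (fun T => T.1)
  have hrinj : Function.Injective r := by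
    rintro (_ | T) (_ | U) h
    · rfl
    · exact absurd h.symm (heO U).1
    · exact absurd h (heO T).1
    · exact congrArg some (Subtype.ext h)
  have hrpos : ∀ o, 0 < a (r o) := by
    rintro (_ | T)
    · exact h0
    · change 0 < a T.1
      rw [orb_val hpos T]
      exact hx
  have hrel : ∀ σ, a e * eps e σ + a x * psum N x σ = 0 := by
    intro σ
    have h3 := ha.rep r hrinj (fun o o' h => by
      have h4 := hrpos o
      rw [h, ha.odd] at h4
      have h5 := hrpos o'
      linarith) (fun S hS => by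
        have key : ∀ S : Set G, 0 < a S → ∃ o, S = r o := by
          intro S hS
          by_cases h4 : S = {σ | σ ∈ N} ∨ S = {σ | σ ∈ N}ᶜ
          · rcases heN S h4 with h5 | h5
            · exact ⟨none, h5⟩
            · exfalso
              rw [h5, ha.odd] at hS
              linarith
          · push Not at h4
            obtain ⟨T, hT⟩ := mem_orbit hc hcompl hH ha hN hpos hcard hx h1 h2 hS h4.1 h4.2
            exact ⟨some T, hT⟩
        rcases lt_or_gt_of_ne hS with h | h
        · obtain ⟨o, ho⟩ := key Sᶜ (by rw [ha.odd]; linarith)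
          exact ⟨o, Or.inr (by rw [← ho, compl_compl])⟩
        · obtain ⟨o, ho⟩ := key S h
          exact ⟨o, Or.inl ho⟩) σ
    rw [Fintype.sum_option] at h3
    rw [← h3]
    congr 1
    unfold psum
    rw [Finset.mul_sum]
    refine Finset.sum_congr rfl fun T _ => ?_
    change _ = a T.1 * eps T.1 σ
    rw [orb_val hpos T]
  have hc3 := three_le hc hN hxH (fun T U => orb_ne_compl ha hpos hx.ne' T U) h1 h2
  have hc4 := two_mul_card_le hcompl ha r hrinj hrpos
  rw [Fintype.card_option] at hc4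
  obtain ⟨m, hm, hm1, -, -⟩ := sum_eps (fun S : OrbT N x => S.1) 1
  have hm2 : psum N x 1 = (Fintype.card (OrbT N x) : ℚ) - 2 * m := hm1
  have habs : a e = |psum N x 1| * a x := by
    have h3 := hrel 1
    have h4 : a e * eps e 1 = -(a x * psum N x 1) := by linarith
    have h5 := congrArg (fun y => |y|) h4
    rw [abs_neg, abs_mul, abs_mul, abs_of_pos h0, abs_of_pos hx] at h5
    have h6 : |eps e 1| = 1 := by
      rcases eps_cases e 1 with h | h <;> rw [h] <;> norm_num
    rw [h6, mul_one] at h5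
    rw [h5]
    ring
  have hne0 : psum N x 1 ≠ 0 := by
    intro h
    rw [h, abs_zero, zero_mul] at habs
    exact h0.ne' habs
  have hnec : |psum N x 1| ≠ Fintype.card (OrbT N x) := by
    intro h
    have h3 := card_one_of_abs hN hxH h
    have h4 : Fintype.card (OrbT N x) ≤ 1 := Fintype.card_le_one_iff.2 h3
    omega
  have hr : ∃ r : ℕ, (Fintype.card (OrbT N x) = 3 ∧ r = 1 ∨ Fintype.card (OrbT N x) = 4 ∧ r = 2) ∧
      |psum N x 1| = r := by
    have h3 : Fintype.card (OrbT N x) = 3 ∨ Fintype.card (OrbT N x) = 4 := by omega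
    rcases h3 with h3 | h3
    · refine ⟨1, Or.inl ⟨h3, rfl⟩, ?_⟩
      rw [hm2, h3] at hnec ⊢
      have h4 : m = 0 ∨ m = 1 ∨ m = 2 ∨ m = 3 := by omega
      rcases h4 with rfl | rfl | rfl | rfl
      · exfalso
        apply hnec
        norm_num
      · norm_num
      · norm_num
      · exfalso
        apply hnec
        norm_num
    · refine ⟨2, Or.inr ⟨h3, rfl⟩, ?_⟩
      rw [hm2, h3] at hnec ⊢
      rw [hm2, h3] at hne0
      have h4 : m = 0 ∨ m = 1 ∨ m = 2 ∨ m = 3 ∨ m = 4 := by omega
      rcases h4 with rfl | rfl | rfl | rfl | rfl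
      · exfalso
        apply hnec
        norm_num
      · norm_num
      · exfalso
        apply hne0
        norm_num
      · norm_num
      · exfalso
        apply hnec
        norm_num
  obtain ⟨r', hr1, hr2⟩ := hr
  refine ⟨r', hr1, by rw [habs, hr2], fun σ => ?_⟩
  have h3 := hrel σ
  rw [habs, hr2] at h3
  have h4 : a x * (psum N x σ + r' * eps e σ) = 0 := by linarith
  exact (mul_eq_zero.1 h4).resolve_left hx.ne'

include hc hcompl hH ha hN hpos hcard in
/-- There is an orbit with more than one element. -/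
theorem exists_orbit (h0 : a ≠ 0) : ∃ x, 0 < a x ∧ x ≠ {σ | σ ∈ N} ∧ x ≠ {σ | σ ∈ N}ᶜ := by
  by_contra hcon
  push Not at hcon
  apply h0
  refine ha.eq_zero_of_card ?_
  have h1 : {S | a S ≠ 0} ⊆ {{σ | σ ∈ N}, {σ | σ ∈ N}ᶜ} := by
    intro S hS
    have key : ∀ S : Set G, 0 < a S → S = {σ | σ ∈ N} ∨ S = {σ | σ ∈ N}ᶜ := by
      intro S hS
      by_cases h : S = {σ | σ ∈ N}
      · exact Or.inl h
      · exact Or.inr (hcon S hS h)
    rcases lt_or_gt_of_ne hS with h | h
    · rcases key Sᶜ (by rw [ha.odd]; linarith) with h2 | h2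
      · right
        rw [Set.mem_singleton_iff, ← h2, compl_compl]
      · left
        exact compl_injective h2
    · rcases key S h with h2 | h2
      · exact Or.inl h2
      · exact Or.inr h2
  refine (Set.ncard_le_ncard h1 (Set.toFinite _)).trans ?_
  refine (Set.ncard_insert_le _ _).trans ?_
  rw [Set.ncard_singleton]
  norm_num

end

end

end Pool.Agent.W547.LD.Comb
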